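import Pool.Agent.BCS.Stmts4

/-!
# Row LCT of squad BCS: the length depends continuously on the metric
-/

set_option autoImplicit false

noncomputable section

open scoped ContDiff Topology
open Set MeasureTheory

namespace Pool.Agent.BCS.H92

open Pool.Agent.SecondKind (Coord pd inv christoffel ricci)
open Pool.Agent.BCS

theorem sqrt_near (a b : ℝ) : √a ≤ √b + √|a - b| := by
  apply Real.sqrt_le_iff.2
  refine ⟨by positivity, ?_⟩
  have h1 : b ≤ √b ^ 2 := by
    by_cases hb : 0 ≤ b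
    · rw [Real.sq_sqrt hb]
    · have := sq_nonneg (√b)
      linarith
  have h2 : √|a - b| ^ 2 = |a - b| := Real.sq_sqrt (abs_nonneg _)
  have h3 : a - b ≤ |a - b| := le_abs_self _
  have h4 : 0 ≤ √b * √|a - b| := by positivity
  nlinarith

theorem lct : LctStmt := by
  intro m g₀ γ δ hg₀ hγ hδ
  obtain ⟨D, hD⟩ : ∃ D : Fin (m + 2) → ℝ → ℝ, ∀ i θ, D i θ = deriv (fun s => γ s i) θ :=
    ⟨fun i θ => deriv (fun s => γ s i) θ, fun _ _ => rfl⟩
  have hγc : ∀ i, ContDiff ℝ ∞ (fun s => γ s i) := fun i => contDiff_pi.1 hγ.smooth i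
  have hDc : ∀ i, Continuous (D i) := by
    intro i
    have h1 : Continuous (deriv (fun s => γ s i)) := (hγc i).continuous_deriv (by simp)
    have h2 : D i = deriv (fun s => γ s i) := funext (fun θ => hD i θ)
    rw [h2]
    exact h1
  have hlen : ∀ g : Coord (m + 2), len g γ =
      ∫ θ in (0 : ℝ)..(2 * Real.pi), √(∑ i, ∑ j, g (γ θ) i j * D i θ * D j θ) := by
    intro g
    unfold len
    simp only [hD]
  have hcont : ∀ g : Coord (m + 2), Met g →
      Continuous (fun θ => √(∑ i, ∑ j, g (γ θ) i j * D i θ * D j θ)) := by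
    intro g hg
    apply Real.continuous_sqrt.comp
    refine continuous_finsetSum _ (fun i _ => continuous_finsetSum _ (fun j _ => ?_))
    exact (((hg.smooth i j).continuous.comp hγ.smooth.continuous).mul (hDc i)).mul (hDc j)
  have hS : Continuous (fun θ => ∑ i, |D i θ|) :=
    continuous_finsetSum _ (fun i _ => (hDc i).abs)
  obtain ⟨C, hC⟩ := (isCompact_Icc (a := (0 : ℝ)) (b := 2 * Real.pi)).exists_bound_of_continuousOn
    hS.continuousOn
  obtain ⟨B, hB⟩ : ∃ B, B = max C 1 := ⟨_, rfl⟩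
  have hB1 : 1 ≤ B := by rw [hB]; exact le_max_right _ _
  have hBC : ∀ θ ∈ Icc (0 : ℝ) (2 * Real.pi), ∑ i, |D i θ| ≤ B := by
    intro θ hθ
    have h1 := hC θ hθ
    rw [Real.norm_eq_abs] at h1
    exact (le_abs_self _).trans (h1.trans (by rw [hB]; exact le_max_left _ _))
  have hpi := Real.pi_pos
  obtain ⟨e, he⟩ : ∃ e, e = δ / (2 * Real.pi * B) := ⟨_, rfl⟩
  have he0 : 0 < e := by rw [he]; positivity
  refine ⟨e ^ 2, by positivity, ?_⟩
  intro g hg hclose
  rw [hlen g, hlen g₀]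
  have hpt : ∀ θ ∈ Icc (0 : ℝ) (2 * Real.pi),
      √(∑ i, ∑ j, g (γ θ) i j * D i θ * D j θ) ≤
        √(∑ i, ∑ j, g₀ (γ θ) i j * D i θ * D j θ) + e * B := by
    intro θ hθ
    refine (sqrt_near _ (∑ i, ∑ j, g₀ (γ θ) i j * D i θ * D j θ)).trans ?_
    apply add_le_add le_rfl
    apply Real.sqrt_le_iff.2
    refine ⟨by positivity, ?_⟩
    have h1 : ∑ i, ∑ j, g (γ θ) i j * D i θ * D j θ - ∑ i, ∑ j, g₀ (γ θ) i j * D i θ * D j θ =
        ∑ i, ∑ j, (g (γ θ) i j - g₀ (γ θ) i j) * D i θ * D j θ := by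
      rw [← Finset.sum_sub_distrib]
      apply Finset.sum_congr rfl
      intro i _
      rw [← Finset.sum_sub_distrib]
      apply Finset.sum_congr rfl
      intro j _
      ring
    rw [h1]
    have h2 : |∑ i, ∑ j, (g (γ θ) i j - g₀ (γ θ) i j) * D i θ * D j θ| ≤
        ∑ i, ∑ j, e ^ 2 * (|D i θ| * |D j θ|) := by
      refine (Finset.abs_sum_le_sum_abs _ _).trans (Finset.sum_le_sum (fun i _ => ?_))
      refine (Finset.abs_sum_le_sum_abs _ _).trans (Finset.sum_le_sum (fun j _ => ?_))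
      rw [abs_mul, abs_mul, mul_assoc]
      apply mul_le_mul_of_nonneg_right (hclose (γ θ) (hγ.onY θ) i j)
      positivity
    refine h2.trans ?_
    have h3 : ∑ i, ∑ j, e ^ 2 * (|D i θ| * |D j θ|) = e ^ 2 * (∑ i, |D i θ|) ^ 2 := by
      rw [sq (∑ i, |D i θ|), Finset.sum_mul_sum, Finset.mul_sum]
      apply Finset.sum_congr rfl
      intro i _
      rw [Finset.mul_sum]
    rw [h3, mul_pow]
    apply mul_le_mul_of_nonneg_left _ (by positivity)
    apply pow_le_pow_left₀ (Finset.sum_nonneg (fun i _ => abs_nonneg _)) (hBC θ hθ)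
  have h4 := intervalIntegral.integral_mono_on (a := (0 : ℝ)) (b := 2 * Real.pi) (μ := volume)
    (by positivity) ((hcont g hg).intervalIntegrable _ _)
    (((hcont g₀ hg₀).add continuous_const).intervalIntegrable _ _) hpt
  refine h4.trans ?_
  simp only [Pi.add_apply]
  rw [intervalIntegral.integral_add ((hcont g₀ hg₀).intervalIntegrable _ _)
    (continuous_const.intervalIntegrable _ _)]
  apply add_le_add le_rfl
  rw [intervalIntegral.integral_const, smul_eq_mul, he, sub_zero]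
  apply le_of_eq
  field_simp

end Pool.Agent.BCS.H92
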